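import Mathlib

/-!
# MP_8b0535_co: no admissible sequences in the middle range

For every function `b₂` with `1 ≪ b₂ ≪ √m` there is no sequence of bipartite graphs with all
degrees in `A` about `m`, all pair codegrees about `b₂` and all triple codegrees equal to one.
-/

namespace Pool.Agent.Results.MP_8b0535_co.NoMidRange

open Filter Topology

/-- `b₂` is a positive function with `1 ≪ b₂ ≪ √m`. -/
def MidRange (b₂ : ℕ → ℝ) : Prop :=
  (∀ m, 0 < b₂ m) ∧ Tendsto b₂ atTop atTop ∧
    Tendsto (fun m : ℕ => b₂ m / Real.sqrt m) atTop (𝓝 0)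

/-- There is a sequence of finite bipartite graphs `G m` with parts `A m`, `B m`, defined for all
`m ≥ m₀` (the graphs with `m < m₀` are irrelevant), that is admissible for `b₂`. The graph `G m` is
given by its adjacency relation between `A m` and `B m`. -/
def HasAdmissible (b₂ : ℕ → ℝ) : Prop :=
  ∃ (m₀ : ℕ) (A B : ℕ → Type) (_ : ∀ m, Finite (A m)) (_ : ∀ m, Finite (B m))
    (G : ∀ m, A m → B m → Prop),
    (∀ m ≥ m₀, Nat.card (A m) = m) ∧
    (∀ ε : ℝ, 0 < ε → ∃ M, ∀ m ≥ M, m ≥ m₀ → ∀ u : A m,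
      |({b | G m u b}.ncard : ℝ) / m - 1| ≤ ε) ∧
    (∀ ε : ℝ, 0 < ε → ∃ M, ∀ m ≥ M, m ≥ m₀ → ∀ u v : A m, u ≠ v →
      |({b | G m u b ∧ G m v b}.ncard : ℝ) / b₂ m - 1| ≤ ε) ∧
    (∀ m ≥ m₀, ∀ u v w : A m, u ≠ v → u ≠ w → v ≠ w →
      {b | G m u b ∧ G m v b ∧ G m w b}.ncard = 1)

/-- The combinatorial core. -/
lemma core {A B : Type} [Fintype A] [Fintype B] [DecidableEq A] [DecidableEq B]
    (G : A → B → Prop) [∀ a b, Decidable (G a b)] (L U : ℕ) (u : A)
    (hL : ∀ v, v ≠ u → L + 1 ≤ (Finset.univ.filter fun b => G u b ∧ G v b).card)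
    (hU : ∀ v, v ≠ u → (Finset.univ.filter fun b => G u b ∧ G v b).card ≤ U)
    (h3e : ∀ v w, v ≠ u → w ≠ u → v ≠ w → ∃ b, G u b ∧ G v b ∧ G w b)
    (h3u : ∀ v w b b', v ≠ u → w ≠ u → v ≠ w → G u b → G v b → G w b → G u b' → G v b' →
      G w b' → b = b') :
    (Fintype.card A - 1) * L ≤ (Finset.univ.filter fun b => G u b).card ∨
    (Fintype.card A - 1) * (Fintype.card A - 1) - (Fintype.card A - 1) ≤
      (Finset.univ.filter fun b => G u b).card * (U * U) := by
  classical
  by_cases hcase : ∃ b, G u b ∧ ∀ v, G v b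
  · left
    obtain ⟨b, hub, hall⟩ := hcase
    have hdisj : ∀ v ∈ Finset.univ.erase u, ∀ w ∈ Finset.univ.erase u, v ≠ w →
        Disjoint ((Finset.univ.filter fun b => G u b ∧ G v b).erase b)
          ((Finset.univ.filter fun b => G u b ∧ G w b).erase b) := by
      intro v hv w hw hvw
      rw [Finset.disjoint_left]
      intro c hc hc'
      simp only [Finset.mem_erase, Finset.mem_filter, Finset.mem_univ, true_and] at hc hc' hv hw
      exact hc.1 (h3u v w c b hv.1 hw.1 hvw hc.2.1 hc.2.2 hc'.2.2 hub (hall v) (hall w))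
    have hsub : (Finset.univ.erase u).biUnion
        (fun v => (Finset.univ.filter fun b => G u b ∧ G v b).erase b) ⊆
        Finset.univ.filter fun b => G u b := by
      intro c hc
      simp only [Finset.mem_biUnion, Finset.mem_erase, Finset.mem_filter, Finset.mem_univ,
        true_and] at hc ⊢
      obtain ⟨v, _, _, h, _⟩ := hc
      exact h
    have hcard := Finset.card_le_card hsub
    rw [Finset.card_biUnion hdisj] at hcard
    refine le_trans ?_ hcard
    have : (Fintype.card A - 1) = (Finset.univ.erase u).card := by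
      rw [Finset.card_erase_of_mem (Finset.mem_univ u), Finset.card_univ]
    rw [this, ← smul_eq_mul]
    apply Finset.card_nsmul_le_sum
    intro v hv
    have hvu : v ≠ u := (Finset.mem_erase.1 hv).1
    have h1 := hL v hvu
    rw [Finset.card_erase_of_mem (by simp [hub, hall v])]
    omega
  · right
    push Not at hcase
    -- block sizes are at most `U`
    let S : B → Finset A := fun b => Finset.univ.filter fun v => v ≠ u ∧ G v b
    have hS : ∀ b, G u b → (S b).card ≤ U := by
      intro b hub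
      obtain ⟨p, hp⟩ := hcase b hub
      have hpu : p ≠ u := by rintro rfl; exact hp hub
      have hex : ∀ v ∈ S b, ∃ c, G u c ∧ G v c ∧ G p c := by
        intro v hv
        simp only [S, Finset.mem_filter, Finset.mem_univ, true_and] at hv
        refine h3e v p hv.1 hpu ?_
        rintro rfl
        exact hp hv.2
      haveI : Nonempty B := ⟨b⟩
      choose! f hf using hex
      refine le_trans ?_ (hU p hpu)
      apply Finset.card_le_card_of_injOn f
      · intro v hv
        have := hf v hv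
        simp only [Finset.coe_filter, Set.mem_setOf_eq, Finset.mem_univ, true_and]
        exact ⟨this.1, this.2.2⟩
      · intro v hv w hw hvw
        by_contra hne
        have h1 := hf v hv
        have h2 := hf w hw
        have hv' := hv
        have hw' := hw
        simp only [S, Finset.coe_filter, Set.mem_setOf_eq, Finset.mem_univ, true_and] at hv' hw'
        have h3 := h3u v w (f v) b hv'.1 hw'.1 hne h1.1 h1.2.1 (by
          have : f v = f w := hvw
          rw [this]; exact h2.2.1) hub hv'.2 hw'.2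
        rw [h3] at h1
        exact hp h1.2.2
    have hsub : (Finset.univ.erase u).offDiag ⊆
        (Finset.univ.filter fun b => G u b).biUnion (fun b => (S b).offDiag) := by
      rintro ⟨v, w⟩ hvw
      rw [Finset.mem_offDiag] at hvw
      obtain ⟨hv, hw, hne⟩ := hvw
      simp only [Finset.mem_erase, Finset.mem_univ, and_true] at hv hw
      obtain ⟨b, h1, h2, h3⟩ := h3e v w hv hw hne
      simp only [Finset.mem_biUnion, Finset.mem_filter, Finset.mem_univ, true_and,
        Finset.mem_offDiag, S]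
      exact ⟨b, h1, ⟨hv, h2⟩, ⟨hw, h3⟩, hne⟩
    have hcard := (Finset.card_le_card hsub).trans Finset.card_biUnion_le
    rw [Finset.offDiag_card, Finset.card_erase_of_mem (Finset.mem_univ u), Finset.card_univ]
      at hcard
    refine hcard.trans ?_
    rw [← smul_eq_mul]
    apply Finset.sum_le_card_nsmul
    intro b hb
    have hub : G u b := by simpa using hb
    rw [Finset.offDiag_card]
    exact (Nat.sub_le _ _).trans (Nat.mul_le_mul (hS b hub) (hS b hub))

lemma midRange_exists : ∃ b₂ : ℕ → ℝ, MidRange b₂ := by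
  refine ⟨fun m => Real.sqrt (Real.sqrt m) + 1, fun m => by positivity, ?_, ?_⟩
  · apply tendsto_atTop_add_const_right
    exact Real.tendsto_sqrt_atTop.comp (Real.tendsto_sqrt_atTop.comp tendsto_natCast_atTop_atTop)
  · have hs : Tendsto (fun m : ℕ => Real.sqrt (Real.sqrt m)) atTop atTop :=
      Real.tendsto_sqrt_atTop.comp (Real.tendsto_sqrt_atTop.comp tendsto_natCast_atTop_atTop)
    have h1 : Tendsto (fun m : ℕ => (Real.sqrt (Real.sqrt m))⁻¹) atTop (𝓝 0) :=
      tendsto_inv_atTop_zero.comp hs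
    have h2 : Tendsto (fun m : ℕ => (Real.sqrt (Real.sqrt m))⁻¹ +
        (Real.sqrt (Real.sqrt m))⁻¹ * (Real.sqrt (Real.sqrt m))⁻¹) atTop (𝓝 (0 + 0 * 0)) :=
      h1.add (h1.mul h1)
    have h3 : (0 : ℝ) + 0 * 0 = 0 := by norm_num
    rw [h3] at h2
    refine h2.congr ?_
    intro m
    set s := Real.sqrt (Real.sqrt m) with hsdef
    have hss : Real.sqrt m = s * s := (Real.mul_self_sqrt (Real.sqrt_nonneg _)).symm
    show s⁻¹ + s⁻¹ * s⁻¹ = (s + 1) / Real.sqrt m
    rw [hss]
    by_cases h0 : s = 0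
    · simp [h0]
    · field_simp

/-- Functions `b₂` with `1 ≪ b₂ ≪ √m` exist, and for none of them is there an admissible
sequence of bipartite graphs. -/
theorem result : (∃ b₂ : ℕ → ℝ, MidRange b₂) ∧ ∀ b₂ : ℕ → ℝ, MidRange b₂ → ¬ HasAdmissible b₂ := by
  refine ⟨midRange_exists, ?_⟩
  classical
  rintro b₂ ⟨hpos, htop, hzero⟩ ⟨m₀, A, B, hA, hB, G, hcard, hdeg, hpair, htrip⟩
  obtain ⟨M1, hM1⟩ := hdeg (1 / 2) (by norm_num)
  obtain ⟨M2, hM2⟩ := hpair (1 / 2) (by norm_num)
  obtain ⟨M3, hM3⟩ := (tendsto_atTop.1 htop 8).exists_forall_of_atTop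
  have hev : ∀ᶠ m : ℕ in atTop, b₂ m / Real.sqrt m < 1 / 10 :=
    hzero.eventually (gt_mem_nhds (by norm_num))
  obtain ⟨M4, hM4⟩ := hev.exists_forall_of_atTop
  obtain ⟨m, hm⟩ : ∃ m, m = max (max m₀ (max M1 M2)) (max (max M3 M4) 10) := ⟨_, rfl⟩
  have g0 : m ≥ m₀ := by omega
  have g1 : m ≥ M1 := by omega
  have g2 : m ≥ M2 := by omega
  have g3 : m ≥ M3 := by omega
  have g4 : m ≥ M4 := by omega
  have g5 : m ≥ 10 := by omega
  haveI := Fintype.ofFinite (A m)
  haveI := Fintype.ofFinite (B m)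
  have hcA : Fintype.card (A m) = m := by rw [← Nat.card_eq_fintype_card]; exact hcard m g0
  have hne : Nonempty (A m) := by rw [← Fintype.card_pos_iff]; omega
  obtain ⟨u⟩ := hne
  have hb8 : 8 ≤ b₂ m := hM3 m g3
  have hmR : (10 : ℝ) ≤ m := by exact_mod_cast g5
  have hsq : 0 < Real.sqrt m := Real.sqrt_pos.2 (by linarith)
  have hb10 : b₂ m < Real.sqrt m / 10 := by
    have := hM4 m g4
    rw [div_lt_iff₀ hsq] at this
    linarith
  have nc : ∀ (p : B m → Prop) [DecidablePred p],
      {b | p b}.ncard = (Finset.univ.filter p).card := by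
    intro p _
    rw [← Set.ncard_coe_finset]
    congr 1
    ext b
    simp
  -- bounds on pair codegrees
  have hpairb : ∀ v, v ≠ u →
      b₂ m / 2 ≤ ((Finset.univ.filter fun b => G m u b ∧ G m v b).card : ℝ) ∧
      ((Finset.univ.filter fun b => G m u b ∧ G m v b).card : ℝ) ≤ 3 / 2 * b₂ m := by
    intro v hv
    have h := hM2 m g2 g0 u v (Ne.symm hv)
    rw [nc (fun b => G m u b ∧ G m v b), abs_le] at h
    have hb := hpos m
    have h1 : (1 : ℝ) / 2 ≤ ((Finset.univ.filter fun b => G m u b ∧ G m v b).card : ℝ) / b₂ m := by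
      linarith [h.1]
    have h2 : ((Finset.univ.filter fun b => G m u b ∧ G m v b).card : ℝ) / b₂ m ≤ 3 / 2 := by
      linarith [h.2]
    rw [le_div_iff₀ hb] at h1
    rw [div_le_iff₀ hb] at h2
    constructor <;> linarith
  have hdegb : ((Finset.univ.filter fun b => G m u b).card : ℝ) ≤ 3 / 2 * m := by
    have h := hM1 m g1 g0 u
    rw [nc (fun b => G m u b), abs_le] at h
    have h2 : ((Finset.univ.filter fun b => G m u b).card : ℝ) / m ≤ 3 / 2 := by linarith [h.2]
    rw [div_le_iff₀ (by linarith)] at h2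
    linarith
  have hUdef : (0 : ℝ) ≤ 3 / 2 * b₂ m := by linarith
  rcases core (G m) 3 (⌊3 / 2 * b₂ m⌋₊) u
      (by
        intro v hv
        have h := (hpairb v hv).1
        have h4 : (4 : ℝ) ≤ ((Finset.univ.filter fun b => G m u b ∧ G m v b).card : ℝ) := by
          linarith
        exact_mod_cast h4)
      (by
        intro v hv
        exact Nat.le_floor (hpairb v hv).2)
      (by
        intro v w hv hw hvw
        have h := htrip m g0 u v w (Ne.symm hv) (Ne.symm hw) hvw
        rw [Set.ncard_eq_one] at h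
        obtain ⟨b, hb⟩ := h
        have : b ∈ ({b} : Set (B m)) := rfl
        rw [← hb] at this
        exact ⟨b, this⟩)
      (by
        intro v w b b' hv hw hvw h1 h2 h3 h1' h2' h3'
        have h := htrip m g0 u v w (Ne.symm hv) (Ne.symm hw) hvw
        rw [Set.ncard_eq_one] at h
        obtain ⟨c, hc⟩ := h
        have e1 : b ∈ {b | G m u b ∧ G m v b ∧ G m w b} := ⟨h1, h2, h3⟩
        have e2 : b' ∈ {b | G m u b ∧ G m v b ∧ G m w b} := ⟨h1', h2', h3'⟩
        rw [hc] at e1 e2
        rw [Set.mem_singleton_iff] at e1 e2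
        rw [e1, e2]) with h | h
  · rw [hcA] at h
    have h' : (((m - 1) * 3 : ℕ) : ℝ) ≤ ((Finset.univ.filter fun b => G m u b).card : ℝ) := by
      exact_mod_cast h
    rw [Nat.cast_mul, Nat.cast_sub (by omega)] at h'
    push_cast at h'
    linarith
  · rw [hcA] at h
    have e : (m - 1) * (m - 1) - (m - 1) = (m - 1) * (m - 2) := by
      obtain ⟨k, hk⟩ : ∃ k, m = k + 2 := ⟨m - 2, by omega⟩
      rw [hk]
      have e1 : k + 2 - 1 = k + 1 := by omega
      have e2 : k + 2 - 2 = k := by omega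
      rw [e1, e2]
      have : (k + 1) * (k + 1) = (k + 1) * k + (k + 1) := by ring
      omega
    rw [e] at h
    have h' : (((m - 1) * (m - 2) : ℕ) : ℝ) ≤
        (((Finset.univ.filter fun b => G m u b).card *
          (⌊3 / 2 * b₂ m⌋₊ * ⌊3 / 2 * b₂ m⌋₊) : ℕ) : ℝ) := by
      exact_mod_cast h
    rw [Nat.cast_mul, Nat.cast_sub (by omega), Nat.cast_sub (by omega)] at h'
    push_cast at h'
    have hfl : ((⌊3 / 2 * b₂ m⌋₊ : ℕ) : ℝ) ≤ 3 / 2 * b₂ m := Nat.floor_le hUdef
    have hfl0 : (0 : ℝ) ≤ ((⌊3 / 2 * b₂ m⌋₊ : ℕ) : ℝ) := Nat.cast_nonneg _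
    have hs2 : Real.sqrt m * Real.sqrt m = m := Real.mul_self_sqrt (by linarith)
    have hU2 : ((⌊3 / 2 * b₂ m⌋₊ : ℕ) : ℝ) * ((⌊3 / 2 * b₂ m⌋₊ : ℕ) : ℝ) ≤ 9 / 400 * m := by
      have hx : ((⌊3 / 2 * b₂ m⌋₊ : ℕ) : ℝ) ≤ 3 / 20 * Real.sqrt m := by linarith
      calc ((⌊3 / 2 * b₂ m⌋₊ : ℕ) : ℝ) * ((⌊3 / 2 * b₂ m⌋₊ : ℕ) : ℝ)
          ≤ (3 / 20 * Real.sqrt m) * (3 / 20 * Real.sqrt m) :=
            mul_le_mul hx hx hfl0 (by positivity)
        _ = 9 / 400 * (Real.sqrt m * Real.sqrt m) := by ring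
        _ = 9 / 400 * m := by rw [hs2]
    have hfin : ((Finset.univ.filter fun b => G m u b).card : ℝ) *
        (((⌊3 / 2 * b₂ m⌋₊ : ℕ) : ℝ) * ((⌊3 / 2 * b₂ m⌋₊ : ℕ) : ℝ)) ≤
        (3 / 2 * m) * (9 / 400 * m) :=
      mul_le_mul hdegb hU2 (by positivity) (by positivity)
    nlinarith

end Pool.Agent.Results.MP_8b0535_co.NoMidRange
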